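import Mathlib
import Pool.Agent.MP_fab550_an.H76.Defs
import Pool.Agent.MP_fab550_an.H76.Core

set_option autoImplicit false

namespace Pool.Agent.Results.MP_fab550_an.NotRealizable

open Pool.Agent.MP_fab550_an.H76 MeasureTheory Metric Filter Topology Set

lemma norm_grad (p : E) (φ : E → ℝ) (y : E) :
    ‖p + gradient φ y‖ = ‖InnerProductSpace.toDual ℝ E p + fderiv ℝ φ y‖ := by
  rw [← (InnerProductSpace.toDual ℝ E).norm_map, map_add, gradient,
    LinearIsometryEquiv.apply_symm_apply]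

lemma of_mem {a : E → ℝ} {p : E} (hp : p ∈ Sset a) (l : E →L[ℝ] ℝ)
    (hl : InnerProductSpace.toDual ℝ E p = l) (ε : ℝ) (hε : 0 < ε) :
    ∃ u : E → ℝ, ContDiff ℝ 1 u ∧ QP l u ∧ u 0 = 0 ∧ ∀ᵐ y, a y * ‖fderiv ℝ u y‖ ≤ 1 + ε := by
  have h1 : Hbar a p < ENNReal.ofReal (1 + ε) :=
    lt_of_le_of_lt hp (by rw [ENNReal.one_lt_ofReal]; linarith)
  unfold Hbar at h1
  obtain ⟨φ, h1⟩ := iInf_lt_iff.1 h1
  obtain ⟨⟨hφ, hper⟩, h1⟩ := iInf_lt_iff.1 h1
  refine ⟨fun y => l y + φ y - φ 0, (l.contDiff.add hφ).sub contDiff_const, ?_, by simp, ?_⟩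
  · intro k y
    simp only [map_add, hper k y]
    ring
  · filter_upwards [ae_lt_of_essSup_lt h1] with y hy
    rw [ENNReal.ofReal_lt_ofReal_iff (by linarith), norm_grad, hl] at hy
    have hd : HasFDerivAt (fun y => l y + φ y - φ 0) (l + fderiv ℝ φ y) y :=
      (l.hasFDerivAt.add (hφ.differentiable one_ne_zero y).hasFDerivAt).sub_const _
    rw [hd.fderiv]
    exact hy.le

lemma mem_of {a : E → ℝ} {p : E} (l : E →L[ℝ] ℝ) (hl : InnerProductSpace.toDual ℝ E p = l)
    (v : E → ℝ) (hv : ContDiff ℝ 1 v) (hq : QP l v) (h : ∀ᵐ y, a y * ‖fderiv ℝ v y‖ ≤ 1) :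
    p ∈ Sset a := by
  have hφ : ContDiff ℝ 1 (fun y => v y - l y) ∧ Per (fun y => v y - l y) := by
    refine ⟨hv.sub l.contDiff, fun k y => ?_⟩
    simp only [map_add, hq k y]
    ring
  change Hbar a p ≤ 1
  unfold Hbar
  refine iInf_le_of_le (fun y => v y - l y) (iInf_le_of_le hφ ?_)
  refine essSup_le_of_ae_le _ ?_
  filter_upwards [h] with y hy
  have hd : HasFDerivAt (fun y => v y - l y) (fderiv ℝ v y - l) y :=
    (hv.differentiable one_ne_zero y).hasFDerivAt.sub l.hasFDerivAt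
  rw [norm_grad, hl, hd.fderiv, add_sub_cancel]
  exact ENNReal.ofReal_le_one.2 hy

lemma per_fderiv {l : E →L[ℝ] ℝ} {u : E → ℝ} (hq : QP l u) (k : Fin 2 → ℤ) (y : E) :
    fderiv ℝ u (y + lat k) = fderiv ℝ u y := by
  rw [← fderiv_comp_add_right]
  have : (fun x => u (x + lat k)) = fun x => u x + l (lat k) := funext (fun x => hq k x)
  rw [this, fderiv_add_const]

def K : Set E := {p | |p 1| ≤ 1 ∧ |p 0 - √2 * p 1| ≤ 1}

lemma toDual_eq (p : E) (l : E →L[ℝ] ℝ) (h : ∀ y : E, l y = p 0 * y 0 + p 1 * y 1) :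
    InnerProductSpace.toDual ℝ E p = l := by
  ext y
  rw [InnerProductSpace.toDual_apply_apply, h, PiLp.inner_apply, Fin.sum_univ_two]
  simp [mul_comm]

lemma not_realizable (a : E → ℝ) (ha : Admissible a) : Sset a ≠ K := by
  intro hK
  obtain ⟨-, -, c0, C0, hc0, hb⟩ := ha
  have hpos : ∀ᵐ y, 0 ≤ a y := hb.mono (fun y h => hc0.le.trans h.1)
  have hC0 : 0 < C0 := by
    obtain ⟨y, h1, h2⟩ := hb.exists
    linarith
  set m0 := 1 / C0 with hm0
  set M0 := 1 / c0 with hM0
  have hm : 0 < m0 := by positivity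
  have hM : 0 < M0 := by positivity
  let τ : ℕ → ℝ := fun n => 1 / ((n : ℝ) + 1)
  have hτ : ∀ n, 0 < τ n := fun n => by positivity
  have hτ1 : ∀ n, τ n ≤ 1 := fun n => by
    simp only [τ]
    rw [div_le_one (by positivity)]
    linarith [Nat.cast_nonneg (α := ℝ) n]
  have hτ0 : Tendsto τ atTop (𝓝 0) := tendsto_one_div_add_atTop_nhds_zero_nat
  choose R hR using fun n => dense_levels (τ n) (hτ n)
  let ε : ℕ → ℝ := fun n => τ n / (10 * (2 * R n + 2 * M0 + 3))
  have hε : ∀ n, 0 < ε n := fun n => by have := hτ n; positivity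
  have hετ : ∀ n, ε n ≤ τ n := fun n =>
    div_le_self (hτ n).le (by nlinarith [Nat.cast_nonneg (α := ℝ) (R n)])
  have hε0 : Tendsto ε atTop (𝓝 0) := squeeze_zero (fun n => (hε n).le) hετ hτ0
  have hetτ : ∀ n, 10 * ε n * (2 * R n + 2 * M0 + 3) ≤ τ n := fun n => by
    apply le_of_eq
    simp only [ε]
    field_simp
  have m1 : (WithLp.toLp 2 ![1 + √2, 1] : E) ∈ Sset a := by
    rw [hK]; constructor <;> simp
  have m2 : (WithLp.toLp 2 ![1 - √2, -1] : E) ∈ Sset a := by
    rw [hK]; constructor <;> simp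
  choose A dA qA zA bA using fun n => of_mem m1 (lP + lQ) (toDual_eq _ _ (fun y => by
    simp only [add_apply, lP_apply, lQ_apply]; simp; ring)) (ε n) (hε n)
  choose B dB qB zB bB using fun n => of_mem m2 (lP - lQ) (toDual_eq _ _ (fun y => by
    simp only [sub_apply, lP_apply, lQ_apply]; simp; ring)) (ε n) (hε n)
  let d : ℕ → E → ℝ := fun n y => max ‖fderiv ℝ (A n) y‖ ‖fderiv ℝ (B n) y‖ / (1 + ε n)
  let c : ℕ → E → ℝ := fun n => Nat.rec (fun y => max m0 (d 0 y))
    (fun n cn y => max (cn y) (d (n + 1) y)) n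
  have c0' : ∀ y, c 0 y = max m0 (d 0 y) := fun _ => rfl
  have cs : ∀ n y, c (n + 1) y = max (c n y) (d (n + 1) y) := fun _ _ => rfl
  have dcont : ∀ n, Continuous (d n) := fun n =>
    (((dA n).continuous_fderiv one_ne_zero).norm.max
      ((dB n).continuous_fderiv one_ne_zero).norm).div_const _
  have dper : ∀ n, Per (d n) := fun n k y => by
    simp only [d, per_fderiv (qA n), per_fderiv (qB n)]
  have dgood : ∀ n, ∀ᵐ y, a y * d n y ≤ 1 := fun n => by
    filter_upwards [bA n, bB n, hpos] with y h1 h2 hp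
    have h3 : 0 < 1 + ε n := by linarith [hε n]
    simp only [d]
    rw [← mul_div_assoc, div_le_one h3, mul_max_of_nonneg _ _ hp]
    exact max_le h1 h2
  have ccont : ∀ n, Continuous (c n) := by
    intro n
    induction n with
    | zero => exact continuous_const.max (dcont 0)
    | succ n ih => exact ih.max (dcont (n + 1))
  have cper : ∀ n, Per (c n) := by
    intro n
    induction n with
    | zero => intro k y; rw [c0', c0', dper]
    | succ n ih => intro k y; rw [cs, cs, ih, dper]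
  have cgood : ∀ n, ∀ᵐ y, a y * c n y ≤ 1 := by
    intro n
    induction n with
    | zero =>
      filter_upwards [dgood 0, hb, hpos] with y h1 h2 hp
      rw [c0', mul_max_of_nonneg _ _ hp]
      refine max_le ?_ h1
      rw [hm0, mul_one_div, div_le_one hC0]
      exact h2.2
    | succ n ih =>
      filter_upwards [dgood (n + 1), ih, hpos] with y h1 h2 hp
      rw [cs, mul_max_of_nonneg _ _ hp]
      exact max_le h2 h1
  have cmono : ∀ m n, m ≤ n → ∀ y, c m y ≤ c n y := by
    intro m n hmn y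
    induction n, hmn using Nat.le_induction with
    | base => exact le_rfl
    | succ n _ ih => rw [cs]; exact ih.trans (le_max_left _ _)
  have clo : ∀ n y, m0 ≤ c n y := fun n y =>
    (le_max_left _ _).trans (cmono 0 n (Nat.zero_le n) y)
  have cd : ∀ n y, d n y ≤ c n y := by
    intro n y
    cases n with
    | zero => exact le_max_right _ _
    | succ n => exact le_max_right _ _
  have chi : ∀ n y, c n y ≤ M0 := by
    intro n y
    have h1 : ∀ᵐ y, c n y ≤ M0 := by
      filter_upwards [cgood n, hb] with y h1 h2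
      rw [hM0, le_div_iff₀ hc0]
      nlinarith [clo n y, h2.1]
    have h2 := (Measure.dense_of_ae h1).closure_eq
    rw [(isClosed_le (ccont n) continuous_const).closure_eq] at h2
    have : y ∈ {y | c n y ≤ M0} := by rw [h2]; trivial
    exact this
  refine core m0 M0 hm ε τ R c A B (fun n => ⟨ccont n, cper n, clo n, chi n, ?_, dA n, dB n, qA n,
    qB n, ?_, ?_⟩) cmono zA zB hτ hτ1 hτ0 hR hε (fun n => (hετ n).trans (hτ1 n)) hε0 hetτ
  · rintro lam hlam ⟨v, hv, hq, hd⟩
    have := mem_of (a := a) (p := WithLp.toLp 2 ![lam, 0]) (lam • lP)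
      (toDual_eq _ _ (fun y => by simp [lP_apply])) v hv hq (by
        filter_upwards [cgood n, hpos] with y hy hp
        exact (mul_le_mul_of_nonneg_left (hd y) hp).trans hy)
    rw [hK] at this
    have h2 := this.2
    simp at h2
    linarith [le_abs_self lam]
  · intro z
    have h3 : 0 < 1 + ε n := by linarith [hε n]
    have := cd n z
    simp only [d] at this
    rw [div_le_iff₀ h3] at this
    linarith [le_max_left ‖fderiv ℝ (A n) z‖ ‖fderiv ℝ (B n) z‖]
  · intro z
    have h3 : 0 < 1 + ε n := by linarith [hε n]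
    have := cd n z
    simp only [d] at this
    rw [div_le_iff₀ h3] at this
    linarith [le_max_right ‖fderiv ℝ (A n) z‖ ‖fderiv ℝ (B n) z‖]

theorem result :
    ∃ K : Set (EuclideanSpace ℝ (Fin 2)), IsCompact K ∧ Convex ℝ K ∧ K = -K ∧
      (interior K).Nonempty ∧
      ∀ a : EuclideanSpace ℝ (Fin 2) → ℝ, Admissible a → Sset a ≠ K := by
  have c1 : Continuous (fun p : E => |p 1|) := by fun_prop
  have c2 : Continuous (fun p : E => |p 0 - √2 * p 1|) := by fun_prop
  refine ⟨K, ?_, ?_, ?_, ?_, not_realizable⟩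
  · apply Metric.isCompact_of_isClosed_isBounded
    · exact (isClosed_le c1 continuous_const).inter (isClosed_le c2 continuous_const)
    · apply (isBounded_closedBall (x := (0 : E)) (r := 2 + √2)).subset
      rintro p ⟨h1, h2⟩
      rw [mem_closedBall, dist_zero_right]
      have h3 : |√2 * p 1| ≤ √2 := by
        rw [abs_mul, abs_of_nonneg (Real.sqrt_nonneg _)]
        exact mul_le_of_le_one_right (Real.sqrt_nonneg _) h1
      have h4 := abs_add_le (p 0 - √2 * p 1) (√2 * p 1)
      rw [sub_add_cancel] at h4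
      linarith [norm_le_coords p]
  · rintro p ⟨h1, h2⟩ q ⟨h3, h4⟩ s t hs ht hst
    rw [abs_le] at h1 h2 h3 h4
    constructor
    · simp only [PiLp.add_apply, PiLp.smul_apply, smul_eq_mul]
      rw [abs_le]
      constructor <;> nlinarith [h1.1, h1.2, h3.1, h3.2]
    · simp only [PiLp.add_apply, PiLp.smul_apply, smul_eq_mul]
      rw [abs_le]
      constructor <;> nlinarith [h2.1, h2.2, h4.1, h4.2]
  · ext p
    simp only [K, Set.mem_neg, mem_ofPred_eq, PiLp.neg_apply, abs_neg]
    rw [show -p 0 - √2 * -p 1 = -(p 0 - √2 * p 1) by ring, abs_neg]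
  · refine ⟨0, mem_interior.2 ⟨{p | |p 1| < 1 ∧ |p 0 - √2 * p 1| < 1}, fun p hp => ⟨hp.1.le, hp.2.le⟩,
      (isOpen_lt c1 continuous_const).inter (isOpen_lt c2 continuous_const), by simp⟩⟩

end Pool.Agent.Results.MP_fab550_an.NotRealizable
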