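import Mathlib
import Pool.Agent.MP_fab550_an.H99.Defs
import Pool.Agent.MP_fab550_an.H76.Core
import Pool.Agent.MP_fab550_an.H99.Core

set_option autoImplicit false

namespace Pool.Agent.Results.MP_fab550_an.NotRealizableLip

open Pool.Agent.MP_fab550_an.H76 Pool.Agent.MP_fab550_an.H99
open MeasureTheory Metric Filter Topology Set

lemma norm_grad (p : E) (φ : E → ℝ) (y : E) :
    ‖p + gradient φ y‖ = ‖InnerProductSpace.toDual ℝ E p + fderiv ℝ φ y‖ := by
  rw [← (InnerProductSpace.toDual ℝ E).norm_map, map_add, gradient,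
    LinearIsometryEquiv.apply_symm_apply]

lemma of_mem {a : E → ℝ} {p : E} (hp : p ∈ SsetLip a) (l : E →L[ℝ] ℝ)
    (hl : InnerProductSpace.toDual ℝ E p = l) (ε : ℝ) (hε : 0 < ε) :
    ∃ u : E → ℝ, (∃ K, LipschitzWith K u) ∧ QP l u ∧ u 0 = 0 ∧
      ∀ᵐ y, a y * ‖fderiv ℝ u y‖ ≤ 1 + ε := by
  have h1 : HbarLip a p < ENNReal.ofReal (1 + ε) :=
    lt_of_le_of_lt hp (by rw [ENNReal.one_lt_ofReal]; linarith)
  unfold HbarLip at h1
  obtain ⟨φ, h1⟩ := iInf_lt_iff.1 h1
  obtain ⟨⟨⟨K, hφ⟩, hper⟩, h1⟩ := iInf_lt_iff.1 h1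
  refine ⟨fun y => l y + φ y - φ 0,
    ⟨_, (l.lipschitz.add hφ).sub (LipschitzWith.const (φ 0))⟩, ?_, by simp, ?_⟩
  · intro k y
    simp only [map_add, hper k y]
    ring
  · filter_upwards [ae_lt_of_essSup_lt h1, hφ.ae_differentiableAt] with y hy hdφ
    rw [ENNReal.ofReal_lt_ofReal_iff (by linarith), norm_grad, hl] at hy
    have hd : HasFDerivAt (fun y => l y + φ y - φ 0) (l + fderiv ℝ φ y) y :=
      (l.hasFDerivAt.add hdφ.hasFDerivAt).sub_const _
    rw [hd.fderiv]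
    exact hy.le

lemma mem_of {a : E → ℝ} {p : E} (l : E →L[ℝ] ℝ) (hl : InnerProductSpace.toDual ℝ E p = l)
    (v : E → ℝ) (K : NNReal) (hv : LipschitzWith K v) (hq : QP l v)
    (h : ∀ᵐ y, a y * ‖fderiv ℝ v y‖ ≤ 1) : p ∈ SsetLip a := by
  have hφ : (∃ K : NNReal, LipschitzWith K (fun y => v y - l y)) ∧ Per (fun y => v y - l y) := by
    refine ⟨⟨_, hv.sub l.lipschitz⟩, fun k y => ?_⟩
    simp only [map_add, hq k y]
    ring
  change HbarLip a p ≤ 1
  unfold HbarLip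
  refine iInf_le_of_le (fun y => v y - l y) (iInf_le_of_le hφ ?_)
  refine essSup_le_of_ae_le _ ?_
  filter_upwards [h, hv.ae_differentiableAt] with y hy hdv
  have hd : HasFDerivAt (fun y => v y - l y) (fderiv ℝ v y - l) y :=
    hdv.hasFDerivAt.sub l.hasFDerivAt
  rw [norm_grad, hl, hd.fderiv, add_sub_cancel]
  exact ENNReal.ofReal_le_one.2 hy

def K : Set E := {p | |p 1| ≤ 1 ∧ |p 0 - √2 * p 1| ≤ 1}

lemma toDual_eq (p : E) (l : E →L[ℝ] ℝ) (h : ∀ y : E, l y = p 0 * y 0 + p 1 * y 1) :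
    InnerProductSpace.toDual ℝ E p = l := by
  ext y
  rw [InnerProductSpace.toDual_apply_apply, h, PiLp.inner_apply, Fin.sum_univ_two]
  simp [mul_comm]

lemma not_realizable (a : E → ℝ) (ha : Admissible a) : SsetLip a ≠ K := by
  intro hK
  obtain ⟨hmeas, -, c0, C0, hc0, hb⟩ := ha
  have hcC : c0 ≤ C0 := by
    obtain ⟨y, h1, h2⟩ := hb.exists
    linarith
  have hC0 : 0 < C0 := hc0.trans_le hcC
  set m0 := C0⁻¹ with hm0
  set M0 := c0⁻¹ with hM0
  have hm : 0 < m0 := by positivity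
  have hmM : m0 ≤ M0 := inv_anti₀ hc0 hcC
  let b : E → ℝ := fun y => max m0 (min M0 (hmeas.mk a y)⁻¹)
  have hbm : Measurable b := measurable_const.max (measurable_const.min hmeas.measurable_mk.inv)
  have lo : ∀ y, m0 ≤ b y := fun y => le_max_left _ _
  have hi : ∀ y, b y ≤ M0 := fun y => max_le hmM (min_le_left _ _)
  have hb0 : ∀ y, 0 ≤ b y := fun y => hm.le.trans (lo y)
  have hab : ∀ᵐ y, 0 < a y ∧ a y * b y = 1 := by
    filter_upwards [hb, hmeas.ae_eq_mk] with y h1 h2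
    have hp : 0 < a y := hc0.trans_le h1.1
    refine ⟨hp, ?_⟩
    simp only [b, ← h2]
    rw [min_eq_right (inv_anti₀ hc0 h1.1), max_eq_right (inv_anti₀ hp h1.2),
      mul_inv_cancel₀ hp.ne']
  have up : ∀ (p : E) (l : E →L[ℝ] ℝ), p ∈ K → InnerProductSpace.toDual ℝ E p = l →
      ∃ u : E → ℝ, (∀ y y', |u y' - u y| ≤ 2 * M0 * ‖y' - y‖) ∧ QP l u ∧
        ∀ᵐ z, ‖fderiv ℝ u z‖ ≤ b z := by
    intro p l hp hl
    apply closed b hbm M0 hb0 hi l
    intro ε hε
    obtain ⟨u, h1, h2, h3, h4⟩ := of_mem (a := a) (by rw [hK]; exact hp) l hl ε hε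
    refine ⟨u, h1, h2, h3, ?_⟩
    filter_upwards [h4, hab] with z h5 h6
    apply le_of_mul_le_mul_left _ h6.1
    rw [mul_left_comm, h6.2, mul_one]
    exact h5
  have down : ∀ (p : E) (l : E →L[ℝ] ℝ), InnerProductSpace.toDual ℝ E p = l → Sub b l →
      p ∈ K := by
    rintro p l hl ⟨v, ⟨Kv, hv⟩, hq, hd⟩
    rw [← hK]
    apply mem_of l hl v Kv hv hq
    filter_upwards [hd, hab] with z h5 h6
    rw [← h6.2]
    exact mul_le_mul_of_nonneg_left h5 h6.1.le
  obtain ⟨A, lA, qA, bA⟩ := up (WithLp.toLp 2 ![1 + √2, 1]) (lP + lQ)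
    (by constructor <;> simp) (toDual_eq _ _ (fun y => by
      simp only [add_apply, lP_apply, lQ_apply]; simp; ring))
  obtain ⟨B, lB, qB, bB⟩ := up (WithLp.toLp 2 ![1 - √2, -1]) (lP - lQ)
    (by constructor <;> simp) (toDual_eq _ _ (fun y => by
      simp only [sub_apply, lP_apply, lQ_apply]; simp; ring))
  have H : Dat m0 (2 * M0) b A B :=
    ⟨hm, by linarith, lo, lA, lB, qA, qB, bA, bB, fun lam hlam hs => by
      have h2 := (down (WithLp.toLp 2 ![lam, 0]) (lam • lP)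
        (toDual_eq _ _ (fun y => by simp [lP_apply])) hs).2
      simp at h2
      linarith [le_abs_self lam]⟩
  obtain ⟨lam, hlam, hs⟩ := second H hbm (fun y => by linarith [hi y])
  have h2 := (down (WithLp.toLp 2 ![lam * √2, lam]) (lam • lQ)
    (toDual_eq _ _ (fun y => by simp [lQ_apply]; ring)) hs).1
  simp at h2
  linarith [le_abs_self lam]

theorem result :
    ∃ K : Set (EuclideanSpace ℝ (Fin 2)), IsCompact K ∧ Convex ℝ K ∧ K = -K ∧
      (interior K).Nonempty ∧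
      ∀ a : EuclideanSpace ℝ (Fin 2) → ℝ, Admissible a → SsetLip a ≠ K := by
  have c1 : Continuous (fun p : E => |p 1|) := by fun_prop
  have c2 : Continuous (fun p : E => |p 0 - √2 * p 1|) := by fun_prop
  refine ⟨K, ?_, ?_, ?_, ?_, not_realizable⟩
  · apply Metric.isCompact_of_isClosed_isBounded
    · exact (isClosed_le c1 continuous_const).inter (isClosed_le c2 continuous_const)
    · apply (isBounded_closedBall (x := (0 : E)) (r := 2 + √2)).subset
      rintro p ⟨h1, h2⟩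
      rw [mem_closedBall, dist_zero_right]
      have h3 : |√2 * p 1| ≤ √2 := by
        rw [abs_mul, abs_of_nonneg (Real.sqrt_nonneg _)]
        exact mul_le_of_le_one_right (Real.sqrt_nonneg _) h1
      have h4 := abs_add_le (p 0 - √2 * p 1) (√2 * p 1)
      rw [sub_add_cancel] at h4
      linarith [norm_le_coords p]
  · rintro p ⟨h1, h2⟩ q ⟨h3, h4⟩ s t hs ht hst
    rw [abs_le] at h1 h2 h3 h4
    constructor
    · simp only [PiLp.add_apply, PiLp.smul_apply, smul_eq_mul]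
      rw [abs_le]
      constructor <;> nlinarith [h1.1, h1.2, h3.1, h3.2]
    · simp only [PiLp.add_apply, PiLp.smul_apply, smul_eq_mul]
      rw [abs_le]
      constructor <;> nlinarith [h2.1, h2.2, h4.1, h4.2]
  · ext p
    simp only [K, Set.mem_neg, mem_ofPred_eq, PiLp.neg_apply, abs_neg]
    rw [show -p 0 - √2 * -p 1 = -(p 0 - √2 * p 1) by ring, abs_neg]
  · refine ⟨0, mem_interior.2 ⟨{p | |p 1| < 1 ∧ |p 0 - √2 * p 1| < 1}, fun p hp => ⟨hp.1.le, hp.2.le⟩,
      (isOpen_lt c1 continuous_const).inter (isOpen_lt c2 continuous_const), by simp⟩⟩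

end Pool.Agent.Results.MP_fab550_an.NotRealizableLip
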